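import Mathlib

set_option autoImplicit false

namespace Pool.Agent.H.MP_554eee_co

/-- Thue-Morse word -/
def tm (n : ℕ) : Fin 2 := if h : n = 0 then 0 else tm (n / 2) + (if n % 2 = 0 then 0 else 1)
termination_by n
decreasing_by omega

lemma tm_zero : tm 0 = 0 := by rw [tm]; simp

lemma tm_even (n : ℕ) : tm (2 * n) = tm n := by
  rcases Nat.eq_zero_or_pos n with rfl | h
  · rfl
  · rw [tm]
    have h1 : 2 * n ≠ 0 := by omega
    have h2 : 2 * n / 2 = n := by omega
    have h3 : 2 * n % 2 = 0 := by omega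
    simp [h1, h2, h3]

lemma tm_odd (n : ℕ) : tm (2 * n + 1) = tm n + 1 := by
  rw [tm]
  have h2 : (2 * n + 1) / 2 = n := by omega
  have h3 : (2 * n + 1) % 2 = 1 := by omega
  simp [h2, h3]

def Eqv (w : ℕ → Fin 2) (i j n : ℕ) : Prop := ∀ k < n, w (i + k) = w (j + k)

/-- overlap-free -/
def OF (y : ℕ → Fin 2) : Prop := ∀ i p, 1 ≤ p → ¬ Eqv y i (i + p) (p + 1)

def Al (y : ℕ → Fin 2) : Prop := ∀ n, y (2 * n + 1) = y (2 * n) + 1

lemma f2_ne (a : Fin 2) : a ≠ a + 1 := by revert a; decide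
lemma f2_add (a : Fin 2) : a + 1 + 1 = a := by revert a; decide

lemma tm_al : Al tm := fun n => by rw [tm_odd, tm_even]

/-- in an aligned word a block repeated at odd distance alternates -/
lemma alt {y : ℕ → Fin 2} (hy : Al y) {i p n : ℕ} (hp : p % 2 = 1) (h : Eqv y i (i + p) n) :
    ∀ j, j + 1 < n → y (i + j + 1) = y (i + j) + 1 := by
  intro j hj
  rcases Nat.mod_two_eq_zero_or_one (i + j) with h0 | h0
  · have := hy ((i + j) / 2)
    have e1 : 2 * ((i + j) / 2) = i + j := by omega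
    rw [e1] at this; exact this
  · have := hy ((i + p + j) / 2)
    have e1 : 2 * ((i + p + j) / 2) = i + p + j := by omega
    rw [e1] at this
    have a1 := h j (by omega)
    have a2 := h (j + 1) hj
    rw [show i + j + 1 = i + (j + 1) by omega, a2, a1]
    rw [show i + p + (j + 1) = i + p + j + 1 by omega]; exact this

lemma alt2 {y : ℕ → Fin 2} {i n : ℕ} (h : ∀ j, j + 1 < n → y (i + j + 1) = y (i + j) + 1) :
    ∀ m, 2 * m < n → y (i + 2 * m) = y i := by
  intro m
  induction m with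
  | zero => intro _; rfl
  | succ m ih =>
    intro hm
    have a1 := h (2 * m) (by omega)
    have a2 := h (2 * m + 1) (by omega)
    rw [show i + 2 * (m + 1) = i + (2 * m + 1) + 1 by omega, a2,
      show i + (2 * m + 1) = i + 2 * m + 1 by omega, a1, ih (by omega), f2_add]

lemma tm_of : OF tm := by
  intro i p
  induction p using Nat.strong_induction_on generalizing i with
  | _ p ih =>
    intro hp h
    rcases Nat.mod_two_eq_zero_or_one p with h0 | h0
    · obtain ⟨q, rfl⟩ : ∃ q, p = 2 * q := ⟨p / 2, by omega⟩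
      refine ih q (by omega) (i / 2) (by omega) ?_
      intro k hk
      have a := h (2 * k) (by omega)
      rcases Nat.mod_two_eq_zero_or_one i with h1 | h1
      · rw [show i + 2 * k = 2 * (i / 2 + k) by omega,
          show i + 2 * q + 2 * k = 2 * (i / 2 + q + k) by omega, tm_even, tm_even] at a
        exact a
      · rw [show i + 2 * k = 2 * (i / 2 + k) + 1 by omega,
          show i + 2 * q + 2 * k = 2 * (i / 2 + q + k) + 1 by omega, tm_odd, tm_odd] at a
        exact add_right_cancel a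
    · have a1 := alt tm_al h0 h
      have a2 := alt2 a1 (p / 2) (by omega)
      have a3 := a1 (2 * (p / 2)) (by omega)
      have a4 := h 0 (by omega)
      rw [a2, show i + 2 * (p / 2) + 1 = i + p + 0 by omega, ← a4] at a3
      exact f2_ne _ a3

lemma tm1 : tm 1 = 1 := by have := tm_odd 0; rw [tm_zero] at this; exact this
lemma tm2 : tm 2 = 1 := by have := tm_even 1; rw [tm1] at this; exact this
lemma tm4 : tm 4 = 1 := by have := tm_even 2; rw [tm2] at this; exact this

/-- the Thue-Morse word has no initial segment of the form B F F B B -/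
lemma tm_np : ∀ s a b : ℕ, a + b = s → 1 ≤ a → 1 ≤ b → Eqv tm a (a + b) b →
    Eqv tm 0 (a + 2 * b) a → Eqv tm 0 (2 * a + 2 * b) a → False := by
  intro s
  induction s using Nat.strong_induction_on with
  | _ s ih =>
    intro a b hs ha hb h1 h2 h3
    rcases Nat.mod_two_eq_zero_or_one a with a0 | a0
    · rcases Nat.mod_two_eq_zero_or_one b with b0 | b0
      · obtain ⟨a', rfl⟩ : ∃ q, a = 2 * q := ⟨a / 2, by omega⟩
        obtain ⟨b', rfl⟩ : ∃ q, b = 2 * q := ⟨b / 2, by omega⟩
        refine ih (a' + b') (by omega) a' b' rfl (by omega) (by omega) ?_ ?_ ?_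
        · intro k hk
          have := h1 (2 * k) (by omega)
          rw [show 2 * a' + 2 * k = 2 * (a' + k) by omega,
            show 2 * a' + 2 * b' + 2 * k = 2 * (a' + b' + k) by omega, tm_even, tm_even] at this
          exact this
        · intro k hk
          have := h2 (2 * k) (by omega)
          rw [show 0 + 2 * k = 2 * (0 + k) by omega,
            show 2 * a' + 2 * (2 * b') + 2 * k = 2 * (a' + 2 * b' + k) by omega,
            tm_even, tm_even] at this
          exact this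
        · intro k hk
          have := h3 (2 * k) (by omega)
          rw [show 0 + 2 * k = 2 * (0 + k) by omega,
            show 2 * (2 * a') + 2 * (2 * b') + 2 * k = 2 * (2 * a' + 2 * b' + k) by omega,
            tm_even, tm_even] at this
          exact this
      · have a1 := alt tm_al b0 h1
        have a2 := alt2 a1 (b / 2) (by omega)
        have a3 := tm_al ((a + b) / 2)
        have a4 := h1 0 (by omega)
        rw [show 2 * ((a + b) / 2) + 1 = a + b + 0 by omega,
          show 2 * ((a + b) / 2) = a + 2 * (b / 2) by omega, a2, ← a4] at a3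
        exact f2_ne _ a3
    · by_cases h3a : 3 ≤ a
      · have c1 := h2 1 (by omega)
        have c2 := h2 2 (by omega)
        have a3 := tm_al ((a + 2 * b + 1) / 2)
        rw [show 2 * ((a + 2 * b + 1) / 2) + 1 = a + 2 * b + 2 by omega,
          show 2 * ((a + 2 * b + 1) / 2) = a + 2 * b + 1 by omega, ← c1, ← c2] at a3
        simp only [Nat.zero_add, tm1, tm2] at a3
        exact f2_ne _ a3
      · obtain rfl : a = 1 := by omega
        rcases Nat.mod_two_eq_zero_or_one b with b0 | b0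
        · refine tm_of 0 b hb ?_
          intro k hk
          rcases Nat.eq_zero_or_pos k with rfl | hk0
          · have c1 := h1 0 (by omega)
            have a3 := tm_al (b / 2)
            have a4 := tm_al 0
            rw [show 2 * (b / 2) + 1 = 1 + b + 0 by omega, show 2 * (b / 2) = b by omega,
              ← c1] at a3
            simp only [Nat.mul_zero, Nat.zero_add, Nat.add_zero] at a4 a3 ⊢
            rw [a4] at a3
            exact add_right_cancel a3
          · have := h1 (k - 1) (by omega)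
            rw [show 1 + (k - 1) = 0 + k by omega, show 1 + b + (k - 1) = 0 + b + k by omega] at this
            exact this
        · by_cases hb1 : b = 1
          · subst hb1
            have := h3 0 (by omega)
            simp only [Nat.add_zero, tm_zero] at this
            rw [show 2 * 1 + 2 * 1 = 4 by rfl, tm4] at this
            exact absurd this (by decide)
          · have a1 := alt tm_al b0 h1 0 (by omega)
            simp only [Nat.add_zero] at a1
            rw [show 1 + 1 = 2 by rfl, tm1, tm2] at a1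
            exact f2_ne _ a1

lemma seven : ∀ a0 a1 a2 a3 a4 a5 a6 : Fin 2, a1 = a0 + 1 → a3 = a2 + 1 →
    ¬ (a3 = a4 ∧ a4 = a5) → ¬ (a4 = a5 ∧ a5 = a6) → ¬ (a0 = a2 ∧ a1 = a3 ∧ a2 = a4) →
    ¬ (a0 = a3 ∧ a1 = a4 ∧ a2 = a5 ∧ a3 = a6) → a5 = a4 + 1 := by decide

lemma of1 {y : ℕ → Fin 2} (hy : OF y) (i : ℕ) : ¬ (y i = y (i + 1) ∧ y (i + 1) = y (i + 2)) := by
  rintro ⟨h1, h2⟩
  refine hy i 1 le_rfl ?_
  intro k hk
  obtain rfl | rfl : k = 0 ∨ k = 1 := by omega
  · exact h1
  · exact h2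

lemma of2 {y : ℕ → Fin 2} (hy : OF y) (i : ℕ) :
    ¬ (y i = y (i + 2) ∧ y (i + 1) = y (i + 3) ∧ y (i + 2) = y (i + 4)) := by
  rintro ⟨h1, h2, h3⟩
  refine hy i 2 (by omega) ?_
  intro k hk
  obtain rfl | rfl | rfl : k = 0 ∨ k = 1 ∨ k = 2 := by omega
  · exact h1
  · exact h2
  · exact h3

lemma of3 {y : ℕ → Fin 2} (hy : OF y) (i : ℕ) :
    ¬ (y i = y (i + 3) ∧ y (i + 1) = y (i + 4) ∧ y (i + 2) = y (i + 5) ∧ y (i + 3) = y (i + 6)) := by
  rintro ⟨h1, h2, h3, h4⟩
  refine hy i 3 (by omega) ?_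
  intro k hk
  obtain rfl | rfl | rfl | rfl : k = 0 ∨ k = 1 ∨ k = 2 ∨ k = 3 := by omega
  · exact h1
  · exact h2
  · exact h3
  · exact h4

lemma al_of {y : ℕ → Fin 2} (hy : OF y) (h0 : y 0 = 0) (h1 : y 1 = 1) (h2 : y 2 = 1) :
    y 3 = 0 ∧ Al y := by
  have h3 : y 3 = 0 := by
    have := of1 hy 1
    simp only [show 1 + 1 = 2 by rfl, show 1 + 2 = 3 by rfl, h1, h2, true_and] at this
    revert this; generalize y 3 = a; revert a; decide
  refine ⟨h3, ?_⟩
  have key : ∀ n, y (2 * n + 1) = y (2 * n) + 1 ∧ y (2 * n + 3) = y (2 * n + 2) + 1 := by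
    intro n
    induction n with
    | zero => simp only [Nat.mul_zero, Nat.zero_add, h0, h1, h2, h3]; decide
    | succ n ih =>
      refine ⟨ih.2, ?_⟩
      exact seven (y (2 * n)) (y (2 * n + 1)) (y (2 * n + 2)) (y (2 * n + 3)) (y (2 * n + 4))
        (y (2 * n + 5)) (y (2 * n + 6)) ih.1 ih.2 (of1 hy (2 * n + 3)) (of1 hy (2 * n + 4))
        (of2 hy (2 * n)) (of3 hy (2 * n))
  exact fun n => (key n).1

lemma tm_pow (k : ℕ) : ∀ r < 2 ^ k, tm (2 ^ k + r) = tm r + 1 := by
  induction k with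
  | zero => intro r hr; obtain rfl : r = 0 := by omega
            simp [tm1, tm_zero]
  | succ k ih =>
    intro r hr
    rcases Nat.mod_two_eq_zero_or_one r with h | h
    · obtain ⟨q, rfl⟩ : ∃ q, r = 2 * q := ⟨r / 2, by omega⟩
      rw [show 2 ^ (k + 1) + 2 * q = 2 * (2 ^ k + q) by ring, tm_even, tm_even]
      exact ih q (by rw [pow_succ] at hr; omega)
    · obtain ⟨q, rfl⟩ : ∃ q, r = 2 * q + 1 := ⟨r / 2, by omega⟩
      rw [show 2 ^ (k + 1) + (2 * q + 1) = 2 * (2 ^ k + q) + 1 by ring, tm_odd, tm_odd]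
      rw [ih q (by rw [pow_succ] at hr; omega)]

def SS (y : ℕ → Fin 2) (k : ℕ) : Prop := ∀ n, ∀ r < 2 ^ k, y (2 ^ k * n + r) = y (2 ^ k * n) + tm r

def Good (y : ℕ → Fin 2) (k : ℕ) : Prop :=
  SS y k ∧ y (2 ^ k * 0) = 0 ∧ y (2 ^ k * 1) = 1 ∧ y (2 ^ k * 2) = 1

lemma of_lev {y : ℕ → Fin 2} (hy : OF y) {k : ℕ} (hs : SS y k) : OF (fun n => y (2 ^ k * n)) := by
  intro i p hp h
  have hpos : 0 < 2 ^ k := by positivity
  refine hy (2 ^ k * i) (2 ^ k * p) (Nat.mul_pos hpos hp) ?_
  intro m hm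
  have e1 : m = 2 ^ k * (m / 2 ^ k) + m % 2 ^ k := (Nat.div_add_mod m (2 ^ k)).symm
  have hr : m % 2 ^ k < 2 ^ k := Nat.mod_lt _ hpos
  have hq : m / 2 ^ k < p + 1 := by
    rw [Nat.div_lt_iff_lt_mul hpos]; nlinarith
  have a := h (m / 2 ^ k) hq
  simp only at a
  have b1 := hs (i + m / 2 ^ k) _ hr
  have b2 := hs (i + p + m / 2 ^ k) _ hr
  rw [show 2 ^ k * i + m = 2 ^ k * (i + m / 2 ^ k) + m % 2 ^ k by rw [Nat.mul_add]; omega,
    show 2 ^ k * i + 2 ^ k * p + m = 2 ^ k * (i + p + m / 2 ^ k) + m % 2 ^ k by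
      rw [Nat.mul_add, Nat.mul_add]; omega, b1, b2, a]

lemma good_step {y : ℕ → Fin 2} (hy : OF y) {k : ℕ} (hg : Good y k) (h4 : y (2 ^ k * 4) = 1) :
    Good y (k + 1) := by
  obtain ⟨hs, g0, g1, g2⟩ := hg
  obtain ⟨-, hal⟩ := al_of (of_lev hy hs) g0 g1 g2
  refine ⟨?_, ?_, ?_, ?_⟩
  · intro n r hr
    have e : 2 ^ (k + 1) * n = 2 ^ k * (2 * n) := by ring
    by_cases h : r < 2 ^ k
    · rw [e]; exact hs _ r h
    · obtain ⟨r', rfl⟩ : ∃ r', r = 2 ^ k + r' := ⟨r - 2 ^ k, by omega⟩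
      have hr' : r' < 2 ^ k := by rw [pow_succ] at hr; omega
      have a := hal n
      simp only at a
      rw [tm_pow k r' hr', show 2 ^ (k + 1) * n + (2 ^ k + r') = 2 ^ k * (2 * n + 1) + r' by ring,
        hs _ r' hr', a, e]
      abel
  · simpa using g0
  · rw [show 2 ^ (k + 1) * 1 = 2 ^ k * 2 by ring]; exact g2
  · rw [show 2 ^ (k + 1) * 2 = 2 ^ k * 4 by ring]; exact h4

lemma good_three {y : ℕ → Fin 2} (hy : OF y) {k : ℕ} (hg : Good y k) : y (2 ^ k * 3) = 0 := by
  obtain ⟨hs, g0, g1, g2⟩ := hg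
  exact (al_of (of_lev hy hs) g0 g1 g2).1

lemma ss_eqv {y : ℕ → Fin 2} {k : ℕ} (hs : SS y k) {a b : ℕ} (h : y (2 ^ k * a) = y (2 ^ k * b)) :
    Eqv y (2 ^ k * a) (2 ^ k * b) (2 ^ k) := by
  intro r hr; rw [hs a r hr, hs b r hr, h]

lemma good_zero {y : ℕ → Fin 2} (h0 : y 0 = 0) (h1 : y 1 = 1) (h2 : y 2 = 1) : Good y 0 := by
  refine ⟨?_, by simpa using h0, by simpa using h1, by simpa using h2⟩
  intro n r hr
  obtain rfl : r = 0 := by omega
  simp [tm_zero]

lemma eq_tm {y : ℕ → Fin 2} (h : ∀ k, Good y k) (n : ℕ) : y n = tm n := by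
  obtain ⟨hs, g0, -⟩ := h n
  have := hs 0 n Nat.lt_two_pow_self
  rw [g0] at this
  simpa using this

end Pool.Agent.H.MP_554eee_co
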