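import Pool.Agent.H.MP_554eee_co.A

set_option autoImplicit false

namespace Pool.Agent.H.MP_554eee_co

def NN : ℕ := 17325724732001746118527382745403051861535145264379414770926525913388559615996847438884145732297432193528089966787435560081700459961085060582139533032166238968728700228753758030121250142240359881110866184771674715400575553730253488241611678834546404763106796939982911300805156694998188200177170115123900054742675595147379452750530929117180313705761421586085574288591402303745298364747318351462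

def bit (n : ℕ) : Fin 2 := if NN.testBit n then 1 else 0

/-- the isolated word -/
def WW (n : ℕ) : Fin 2 := if n < 427 then bit n else tm (n - 427)

def allR (f : ℕ → Bool) (lo : ℕ) : ℕ → Bool
  | 0 => true
  | k + 1 => f (lo + k) && allR f lo k

lemma allR_spec {f : ℕ → Bool} {lo : ℕ} : ∀ {k : ℕ}, allR f lo k = true →
    ∀ x, lo ≤ x → x < lo + k → f x = true
  | 0, _, x, h1, h2 => by omega
  | k + 1, h, x, h1, h2 => by
    simp only [allR, Bool.and_eq_true] at h
    by_cases hx : x = lo + k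
    · rw [hx]; exact h.1
    · exact allR_spec h.2 x h1 (by omega)

def chk0 : Bool := allR (fun m => (bit (427 + 2 * m) == bit (427 + m)) &&
  (bit (427 + (2 * m + 1)) == bit (427 + m) + 1)) 0 436

lemma chk0_ok : chk0 = true := by decide +kernel

lemma bit_tm : ∀ m, m < 872 → bit (427 + m) = tm m := by
  intro m
  induction m using Nat.strong_induction_on with
  | _ m ih =>
    intro hm
    rcases Nat.eq_zero_or_pos m with rfl | hpos
    · rw [tm_zero]; decide +kernel
    · have := allR_spec chk0_ok (m / 2) (by omega) (by omega)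
      simp only [Bool.and_eq_true, beq_iff_eq] at this
      rcases Nat.mod_two_eq_zero_or_one m with h | h
      · obtain ⟨q, rfl⟩ : ∃ q, m = 2 * q := ⟨m / 2, by omega⟩
        rw [show 2 * q / 2 = q by omega] at this
        rw [this.1, tm_even, ih q (by omega) (by omega)]
      · obtain ⟨q, rfl⟩ : ∃ q, m = 2 * q + 1 := ⟨m / 2, by omega⟩
        rw [show (2 * q + 1) / 2 = q by omega] at this
        rw [this.2, tm_odd, ih q (by omega) (by omega)]

lemma WW_bit {n : ℕ} (h : n < 1299) : WW n = bit n := by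
  unfold WW
  split_ifs with h1
  · rfl
  · rw [← bit_tm (n - 427) (by omega), show 427 + (n - 427) = n by omega]

lemma WW_tm (n : ℕ) : WW (427 + n) = tm n := by
  unfold WW
  rw [if_neg (by omega), show 427 + n - 427 = n by omega]

def eqb (i j n : ℕ) : Bool := ((NN >>> i) ^^^ (NN >>> j)) % 2 ^ n == 0

lemma eqb_of {i j n : ℕ} (hi : i + n ≤ 1299) (hj : j + n ≤ 1299) (h : Eqv WW i j n) :
    eqb i j n = true := by
  unfold eqb
  rw [beq_iff_eq]
  apply Nat.eq_of_testBit_eq
  intro k
  rw [Nat.testBit_mod_two_pow, Nat.testBit_xor, Nat.testBit_shiftRight, Nat.testBit_shiftRight,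
    Nat.zero_testBit]
  by_cases hk : k < n
  · have := h k hk
    rw [WW_bit (by omega), WW_bit (by omega)] at this
    unfold bit at this
    revert this
    cases NN.testBit (i + k) <;> cases NN.testBit (j + k) <;> simp
  · simp [hk]

def fin5 (e s1 s2 s3 s4 s5 : ℕ) : Bool :=
  [e, s1, s2, s3, s4, s5] == [4, 0, 13, 27, 40, 58] ||
  [e, s1, s2, s3, s4, s5] == [3, 70, 80, 90, 100, 115] ||
  [e, s1, s2, s3, s4, s5] == [6, 124, 143, 163, 184, 208] ||
  [e, s1, s2, s3, s4, s5] == [5, 227, 243, 260, 278, 299] ||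
  [e, s1, s2, s3, s4, s5] == [6, 315, 334, 353, 372, 396]

def nxt (e s1 s : ℕ) (f : ℕ → Bool) : Bool :=
  allR (fun s' => !(eqb s1 s' (3 * e)) || f s') (s + 3 * e + 1) (427 - (s + 3 * e + 1))

def chk1 : Bool := allR (fun e => allR (fun s1 => !(eqb s1 (s1 + e) (2 * e)) ||
  nxt e s1 s1 fun s2 => nxt e s1 s2 fun s3 => nxt e s1 s3 fun s4 => nxt e s1 s4 fun s5 =>
    fin5 e s1 s2 s3 s4 s5) 0 427) 1 33

lemma chk1_ok : chk1 = true := by decide +kernel

lemma nxt_spec {e s1 s : ℕ} {f : ℕ → Bool} (h : nxt e s1 s f = true) (s' : ℕ)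
    (h1 : s + 3 * e + 1 ≤ s') (h2 : s' < 427) (he : e ≤ 33) (hs : s1 < 427)
    (h3 : Eqv WW s1 s' (3 * e)) : f s' = true := by
  have := allR_spec h s' h1 (by omega)
  rw [eqb_of (by omega) (by omega) h3] at this
  simpa using this

lemma parse5 {e s1 s2 s3 s4 s5 : ℕ} (he : 1 ≤ e) (h0 : Eqv WW s1 (s1 + e) (2 * e))
    (l2 : s1 + 3 * e + 1 ≤ s2) (l3 : s2 + 3 * e + 1 ≤ s3) (l4 : s3 + 3 * e + 1 ≤ s4)
    (l5 : s4 + 3 * e + 1 ≤ s5) (l6 : s5 + e ≤ 427)
    (h2 : Eqv WW s1 s2 (3 * e)) (h3 : Eqv WW s1 s3 (3 * e)) (h4 : Eqv WW s1 s4 (3 * e))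
    (h5 : Eqv WW s1 s5 (3 * e)) : fin5 e s1 s2 s3 s4 s5 = true := by
  have a := allR_spec (allR_spec chk1_ok e he (by omega)) s1 (by omega) (by omega)
  rw [eqb_of (by omega) (by omega) h0] at a
  simp only [Bool.not_true, Bool.false_or] at a
  exact nxt_spec (nxt_spec (nxt_spec (nxt_spec a s2 l2 (by omega) (by omega) (by omega) h2)
    s3 l3 (by omega) (by omega) (by omega) h3) s4 l4 (by omega) (by omega) (by omega) h4)
    s5 l5 (by omega) (by omega) (by omega) h5

def chk2 : Bool := allR (fun z => !(eqb z 415 6) ||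
  allR (fun b => allR (fun f => !(eqb (z + 6 + b) (z + 6 + b + f) f) ||
    !(eqb (z + 6) (z + 6 + b + 2 * f) b) || !(eqb (z + 6) (z + 6 + 2 * b + 2 * f) b))
    1 (426 - (z + 6 + b))) 1 (426 - (z + 6))) 124 291

lemma chk2_ok : chk2 = true := by decide +kernel

def chk3 : Bool := allR (fun z => !(eqb z 421 6) || z == 421) 70 357

lemma chk3_ok : chk3 = true := by decide +kernel

end Pool.Agent.H.MP_554eee_co
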