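import Pool.Agent.H.MP_554eee_co.B

set_option autoImplicit false

namespace Pool.Agent.H.MP_554eee_co

def seg (w : ℕ → Fin 2) (i n : ℕ) : List (Fin 2) := List.ofFn (fun j : Fin n => w (i + (j : ℕ)))

@[simp] lemma seg_len (w : ℕ → Fin 2) (i n : ℕ) : (seg w i n).length = n := by simp [seg]

lemma seg_add (w : ℕ → Fin 2) (i a b : ℕ) : seg w i (a + b) = seg w i a ++ seg w (i + a) b := by
  unfold seg
  rw [List.ofFn_add]
  simp [Nat.add_assoc]

lemma seg_eq {w w' : ℕ → Fin 2} {i j n : ℕ} :
    seg w i n = seg w' j n ↔ ∀ k < n, w (i + k) = w' (j + k) := by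
  unfold seg
  rw [List.ofFn_inj]
  constructor
  · intro h k hk; exact congrFun h ⟨k, hk⟩
  · intro h; funext k; exact h k k.2

def At (w : ℕ → Fin 2) (i : ℕ) (l : List (Fin 2)) : Prop := seg w i l.length = l

lemma at_append {w : ℕ → Fin 2} {i : ℕ} {l r : List (Fin 2)} :
    At w i (l ++ r) ↔ At w i l ∧ At w (i + l.length) r := by
  unfold At
  rw [List.length_append, seg_add]
  constructor
  · intro h; exact List.append_inj h (by simp)
  · rintro ⟨h1, h2⟩; rw [h1, h2]

lemma at_seg (w : ℕ → Fin 2) (i n : ℕ) : At w i (seg w i n) := by simp [At]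

lemma at_eqv {w : ℕ → Fin 2} {i j : ℕ} {l : List (Fin 2)} (h1 : At w i l) (h2 : At w j l) :
    Eqv w i j l.length := seg_eq.1 (h1.trans h2.symm)

lemma eqv_at {w : ℕ → Fin 2} {i j n : ℕ} (h : Eqv w i j n) : At w j (seg w i n) := by
  unfold At; rw [seg_len]; exact (seg_eq.2 h).symm

def pat : List (Fin 11) :=
  [0,0,0,1,0,0,0,2,0,0,0,3,0,0,0,4,0,0,0,5,4,6,7,7,6,6,8,1,9,2,9,1,10,3]

def Av (w : ℕ → Fin 2) : Prop := ∀ (h : Fin 11 → List (Fin 2)), (∀ x, h x ≠ []) →
  ∀ i n : ℕ, List.ofFn (fun j : Fin n => w (i + (j : ℕ))) ≠ pat.flatMap h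

def cube (E : List (Fin 2)) : List (Fin 2) := E ++ E ++ E

def QQ (E A C H P : List (Fin 2)) : List (Fin 2) :=
  cube E ++ A ++ cube E ++ C ++ cube E ++ H ++ cube E ++ P ++ cube E

lemma pat_flat (h : Fin 11 → List (Fin 2)) : pat.flatMap h =
    QQ (h 0) (h 1) (h 2) (h 3) (h 4) ++ (h 5 ++ ((h 4 ++ h 6 ++ h 7 ++ h 7 ++ h 6 ++ h 6) ++ (h 8 ++
      ((h 1 ++ h 9 ++ h 2 ++ h 9 ++ h 1) ++ (h 10 ++ h 3))))) := by
  simp [pat, QQ, cube]

lemma mk_occ {w : ℕ → Fin 2} (E A C H P B F D : List (Fin 2)) (hE : E ≠ []) (hA : A ≠ [])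
    (hC : C ≠ []) (hH : H ≠ []) (hP : P ≠ []) (hB : B ≠ []) (hF : F ≠ []) (hD : D ≠ [])
    (i j k l : ℕ) (h1 : At w i (QQ E A C H P)) (hj : i + (QQ E A C H P).length < j)
    (h2 : At w j (P ++ B ++ F ++ F ++ B ++ B)) (hk : j + (P ++ B ++ F ++ F ++ B ++ B).length < k)
    (h3 : At w k (A ++ D ++ C ++ D ++ A)) (hl : k + (A ++ D ++ C ++ D ++ A).length < l)
    (h4 : At w l H) : ¬ Av w := by
  intro hav
  obtain ⟨x, rfl⟩ : ∃ x, j = i + (QQ E A C H P).length + (x + 1) :=
    ⟨j - (i + (QQ E A C H P).length) - 1, by omega⟩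
  generalize hj' : i + (QQ E A C H P).length = j' at *
  obtain ⟨y, rfl⟩ : ∃ y, k = j' + (x + 1) + (P ++ B ++ F ++ F ++ B ++ B).length + (y + 1) :=
    ⟨k - (j' + (x + 1) + (P ++ B ++ F ++ F ++ B ++ B).length) - 1, by omega⟩
  generalize hk' : j' + (x + 1) + (P ++ B ++ F ++ F ++ B ++ B).length = k' at *
  obtain ⟨z, rfl⟩ : ∃ z, l = k' + (y + 1) + (A ++ D ++ C ++ D ++ A).length + (z + 1) :=
    ⟨l - (k' + (y + 1) + (A ++ D ++ C ++ D ++ A).length) - 1, by omega⟩
  generalize hl' : k' + (y + 1) + (A ++ D ++ C ++ D ++ A).length = l' at *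
  have ne : ∀ a b, seg w a (b + 1) ≠ [] := fun a b h => by
    have := congrArg List.length h; simp at this
  let h : Fin 11 → List (Fin 2) :=
    ![E, A, C, H, P, seg w j' (x + 1), B, F, seg w k' (y + 1), D, seg w l' (z + 1)]
  have hne : ∀ v, h v ≠ [] := by
    intro v
    fin_cases v <;> first | assumption | exact ne _ _
  have key : At w i (pat.flatMap h) := by
    rw [pat_flat]
    change At w i (QQ E A C H P ++ (seg w j' (x + 1) ++ ((P ++ B ++ F ++ F ++ B ++ B) ++
      (seg w k' (y + 1) ++ ((A ++ D ++ C ++ D ++ A) ++ (seg w l' (z + 1) ++ H))))))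
    refine at_append.2 ⟨h1, ?_⟩
    rw [hj']
    refine at_append.2 ⟨at_seg _ _ _, ?_⟩
    rw [seg_len]
    refine at_append.2 ⟨h2, ?_⟩
    rw [hk']
    refine at_append.2 ⟨at_seg _ _ _, ?_⟩
    rw [seg_len]
    refine at_append.2 ⟨h3, ?_⟩
    rw [hl']
    refine at_append.2 ⟨at_seg _ _ _, ?_⟩
    rw [seg_len]
    exact h4
  exact hav h hne i _ key

lemma cube_bound {s e : ℕ} (he : 1 ≤ e) (h : Eqv WW s (s + e) (2 * e)) : s + e ≤ 427 := by
  by_contra hc
  have hm : ∃ m, s ≤ 427 + m ∧ 427 + m + 1 ≤ s + e := by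
    by_cases h1 : s ≤ 427
    · exact ⟨0, by omega, by omega⟩
    · exact ⟨s - 427, by omega, by omega⟩
  obtain ⟨m, h1, h2⟩ := hm
  refine tm_of m e he ?_
  intro k hk
  have := h (427 + m - s + k) (by omega)
  rw [show s + (427 + m - s + k) = 427 + (m + k) by omega,
    show s + e + (427 + m - s + k) = 427 + (m + e + k) by omega, WW_tm, WW_tm] at this
  exact this

lemma at_cube {w : ℕ → Fin 2} {s : ℕ} {E : List (Fin 2)} (h : At w s (cube E)) :
    Eqv w s (s + E.length) (2 * E.length) := by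
  unfold cube at h
  have h1 := (at_append.1 h).1
  rw [List.append_assoc] at h
  have h2 := (at_append.1 h).2
  have := at_eqv h1 h2
  rw [List.length_append, ← two_mul] at this
  exact this

lemma run_bound {m : ℕ} (h1 : WW m = WW (m + 1)) (h2 : WW (m + 1) = WW (m + 2)) : m + 1 ≤ 427 := by
  refine cube_bound le_rfl ?_
  intro k hk
  obtain rfl | rfl : k = 0 ∨ k = 1 := by omega
  · exact h1
  · exact h2

lemma WWv {n : ℕ} (h : n < 427) : WW n = bit n := WW_bit (by omega)

lemma beta1 : WW 421 = 1 ∧ WW 422 = 1 ∧ WW 423 = 1 ∧ WW 424 = 1 ∧ WW 425 = 1 := by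
  rw [WWv (by omega), WWv (by omega), WWv (by omega), WWv (by omega), WWv (by omega)]
  decide +kernel

lemma act_Z {z b f : ℕ} (hz : 124 ≤ z) (hb : 1 ≤ b) (hf : 1 ≤ f) (h0 : Eqv WW z 415 6)
    (h1 : Eqv WW (z + 6 + b) (z + 6 + b + f) f) (h2 : Eqv WW (z + 6) (z + 6 + b + 2 * f) b)
    (h3 : Eqv WW (z + 6) (z + 6 + 2 * b + 2 * f) b) : 415 ≤ z := by
  by_contra hc
  obtain ⟨b1, b2, b3, b4, b5⟩ := beta1
  have bd : z + 6 + b + f ≤ 426 := by
    by_cases c1 : 424 ≤ z + 6 + b
    · have a1 := h2 (415 - z) (by omega)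
      have a2 := h2 (416 - z) (by omega)
      have a3 := h2 (417 - z) (by omega)
      rw [show z + 6 + (415 - z) = 421 by omega, b1,
        show z + 6 + b + 2 * f + (415 - z) = 421 + b + 2 * f by omega] at a1
      rw [show z + 6 + (416 - z) = 422 by omega, b2,
        show z + 6 + b + 2 * f + (416 - z) = 421 + b + 2 * f + 1 by omega] at a2
      rw [show z + 6 + (417 - z) = 423 by omega, b3,
        show z + 6 + b + 2 * f + (417 - z) = 421 + b + 2 * f + 2 by omega] at a3
      have := run_bound (a1.symm.trans a2) (a2.symm.trans a3)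
      omega
    · by_contra c2
      have a1 := h1 (417 - z - b) (by omega)
      have a2 := h1 (418 - z - b) (by omega)
      have a3 := h1 (419 - z - b) (by omega)
      rw [show z + 6 + b + (417 - z - b) = 423 by omega, b3,
        show z + 6 + b + f + (417 - z - b) = 423 + f by omega] at a1
      rw [show z + 6 + b + (418 - z - b) = 424 by omega, b4,
        show z + 6 + b + f + (418 - z - b) = 423 + f + 1 by omega] at a2
      rw [show z + 6 + b + (419 - z - b) = 425 by omega, b5,
        show z + 6 + b + f + (419 - z - b) = 423 + f + 2 by omega] at a3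
      have := run_bound (a1.symm.trans a2) (a2.symm.trans a3)
      omega
  have a := allR_spec chk2_ok z hz (by omega)
  rw [eqb_of (by omega) (by omega) h0] at a
  simp only [Bool.not_true, Bool.false_or] at a
  have a' := allR_spec (allR_spec a b hb (by omega)) f hf (by omega)
  rw [eqb_of (by omega) (by omega) h1, eqb_of (by omega) (by omega) h2,
    eqb_of (by omega) (by omega) h3] at a'
  simp at a'

lemma act_G {z : ℕ} (hz : 70 ≤ z) (h0 : Eqv WW z 421 6) : z = 421 := by
  obtain ⟨b1, b2, b3, -, -⟩ := beta1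
  have a1 := h0 0 (by omega)
  have a2 := h0 1 (by omega)
  have a3 := h0 2 (by omega)
  rw [show 421 + 0 = 421 by rfl, b1] at a1
  rw [show 421 + 1 = 422 by rfl, b2] at a2
  rw [show 421 + 2 = 423 by rfl, b3] at a3
  have := run_bound (m := z) (a1.trans a2.symm) (a2.trans a3.symm)
  have a := allR_spec chk3_ok z hz (by omega)
  rw [eqb_of (by omega) (by omega) h0] at a
  simpa using a

def eqv (i j n : ℕ) : Bool := allR (fun k => bit (i + k) == bit (j + k)) 0 n

lemma eqv_spec {i j n : ℕ} (h : eqv i j n = true) (hi : i + n ≤ 1299) (hj : j + n ≤ 1299) :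
    Eqv WW i j n := by
  intro k hk
  have := allR_spec h k (by omega) (by omega)
  rw [WW_bit (by omega), WW_bit (by omega)]
  simpa using this

lemma Eqv.symm {w : ℕ → Fin 2} {i j n : ℕ} (h : Eqv w i j n) : Eqv w j i n :=
  fun k hk => (h k hk).symm

lemma Eqv.trans {w : ℕ → Fin 2} {i j l n : ℕ} (h : Eqv w i j n) (h' : Eqv w j l n) : Eqv w i l n :=
  fun k hk => (h k hk).trans (h' k hk)

lemma no_ov {u d : ℕ} (hu : 427 ≤ u) (h1 : WW u = WW (u + 1 + d)) (h2 : Eqv WW (u + 1) (u + 1 + d + 1) d)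
    (h3 : WW (u + 1 + d) = WW (u + 1 + d + 1 + d)) : False := by
  refine tm_of (u - 427) (d + 1) (by omega) ?_
  intro k hk
  rw [← WW_tm, ← WW_tm, show 427 + (u - 427 + k) = u + k by omega,
    show 427 + (u - 427 + (d + 1) + k) = u + 1 + d + k by omega]
  rcases Nat.eq_zero_or_pos k with rfl | hk0
  · exact h1
  · by_cases hk1 : k = d + 1
    · subst hk1
      rw [show u + (d + 1) = u + 1 + d by omega, show u + 1 + d + (d + 1) = u + 1 + d + 1 + d by omega]
      exact h3
    · have := h2 (k - 1) (by omega)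
      rw [show u + 1 + (k - 1) = u + k by omega,
        show u + 1 + d + 1 + (k - 1) = u + 1 + d + k by omega] at this
      exact this

theorem WW_av : Av WW := by
  intro h hne i n hn
  have hat : At WW i (pat.flatMap h) := by
    have hl : n = (pat.flatMap h).length := by rw [← hn]; simp
    subst hl; exact hn
  rw [pat_flat] at hat
  have pos : ∀ v, 1 ≤ (h v).length := fun v => List.length_pos_iff.2 (hne v)
  have p0 := pos 0; have p1 := pos 1; have p2 := pos 2; have p3 := pos 3; have p4 := pos 4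
  have p5 := pos 5; have p6 := pos 6; have p7 := pos 7; have p8 := pos 8; have p9 := pos 9
  have p10 := pos 10
  generalize h 0 = E at *
  generalize h 1 = A at *
  generalize h 2 = C at *
  generalize h 3 = H at *
  generalize h 4 = P at *
  generalize h 5 = X at *
  generalize h 6 = B at *
  generalize h 7 = F at *
  generalize h 8 = Y at *
  generalize h 9 = D at *
  generalize h 10 = Z at *
  have lc : (cube E).length = 3 * E.length := by simp [cube]; omega
  simp only [QQ, at_append, List.length_append, lc] at hat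
  obtain ⟨⟨⟨⟨⟨⟨⟨⟨⟨c1, a1⟩, c2⟩, k1⟩, c3⟩, g1⟩, c4⟩, q1⟩, c5⟩, -, ⟨⟨⟨⟨⟨q2, b1⟩, f1⟩, f2⟩, b2⟩, b3⟩,
    -, ⟨⟨⟨⟨a2, d1⟩, k2⟩, d2⟩, a3⟩, -, g2⟩ := hat
  have e2 := at_eqv c1 c2
  have e3 := at_eqv c1 c3
  have e4 := at_eqv c1 c4
  have e5 := at_eqv c1 c5
  rw [lc] at e2 e3 e4 e5
  have bd := cube_bound p0 (at_cube c5)
  have fin := parse5 p0 (at_cube c1) (by omega) (by omega) (by omega) (by omega) bd e2 e3 e4 e5
  have eA := at_eqv a1 a2
  have eA' := at_eqv a1 a3
  have eC := at_eqv k1 k2
  have eH := at_eqv g1 g2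
  have eP := at_eqv q1 q2
  have eB := at_eqv b1 b2
  have eB' := at_eqv b1 b3
  have eF := at_eqv f1 f2
  have eD := at_eqv d1 d2
  clear c1 c2 c3 c4 c5 a1 a2 a3 k1 k2 g1 g2 q1 q2 b1 b2 b3 f1 f2 d1 d2 e2 e3 e4 e5 lc pos hn hne
  generalize E.length = e at *
  generalize A.length = a at *
  generalize C.length = c at *
  generalize H.length = g at *
  generalize P.length = p at *
  generalize X.length = x at *
  generalize B.length = b at *
  generalize F.length = f at *
  generalize Y.length = y at *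
  generalize D.length = d at *
  generalize Z.length = z at *
  generalize hz0 : i + (3 * e + a + 3 * e + c + 3 * e + g + 3 * e + p + 3 * e) + x = z0 at *
  generalize hu0 : z0 + (p + b + f + f + b + b) + y = u0 at *
  generalize hl0 : u0 + (a + d + c + d + a) + z = l0 at *
  have zact : ∀ pp, p = 6 → 124 ≤ z0 → eqv pp 415 6 = true → pp ≤ 500 →
      i + (3 * e + a + 3 * e + c + 3 * e + g + 3 * e) = pp → 427 ≤ u0 := by
    intro pp hp hz hv hpp hpos
    subst hp
    rw [hpos] at eP
    have := act_Z hz p6 p7 (eP.symm.trans (eqv_spec hv (by omega) (by omega)))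
      (by convert eF using 1 <;> omega) (by convert eB using 1 <;> omega)
      (by convert eB' using 1 <;> omega)
    omega
  have ovl : ∀ pa pc, a = 1 → c = 1 → 427 ≤ u0 → i + 3 * e = pa →
      i + (3 * e + a + 3 * e) = pc → eqv pa pc 1 = true → pa ≤ 500 → pc ≤ 500 → False := by
    intro pa pc ha hc hu hpa hpc hv h1 h2
    subst ha hc
    rw [hpa] at eA eA'
    rw [hpc] at eC
    have v := eqv_spec hv (by omega) (by omega) 0 (by omega)
    have v1 := eA 0 (by omega)
    have v2 := eA' 0 (by omega)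
    have v3 := eC 0 (by omega)
    refine no_ov hu (d := d) ?_ (by convert eD using 1 <;> omega) ?_
    · rw [show u0 + 1 + d = u0 + (1 + d) + 0 by omega, ← v3, ← v]; exact v1.symm
    · rw [show u0 + 1 + d + 1 + d = u0 + (1 + d + 1 + d) + 0 by omega, ← v2,
        show u0 + 1 + d = u0 + (1 + d) + 0 by omega, ← v3, v]
  have run : ∀ pg, g = 3 → 427 ≤ u0 → i + (3 * e + a + 3 * e + c + 3 * e) = pg →
      eqv pg (pg + 1) 2 = true → pg ≤ 500 → False := by
    intro pg hg hu hpg hv h1
    subst hg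
    rw [hpg] at eH
    have v := eqv_spec hv (by omega) (by omega)
    have v0 := v 0 (by omega)
    have v1 := v 1 (by omega)
    have w0 := eH 0 (by omega)
    have w1 := eH 1 (by omega)
    have w2 := eH 2 (by omega)
    have := run_bound (m := l0) ((w0.symm.trans v0).trans w1) ((w1.symm.trans v1).trans w2)
    omega
  simp only [fin5, Bool.or_eq_true, beq_iff_eq, List.cons.injEq, and_true] at fin
  rcases fin with (((fin | fin) | fin) | fin) | fin
  · have hp : p = 6 := by omega
    subst hp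
    rw [show i + (3 * e + a + 3 * e + c + 3 * e + g + 3 * e) = 52 by omega] at eP
    have := act_G (z := z0) (by omega)
      (eP.symm.trans (eqv_spec (by decide +kernel) (by omega) (by omega)))
    subst this
    refine tm_np _ b f rfl p6 p7 ?_ ?_ ?_
    · intro k hk
      have := eF k hk
      rw [← WW_tm, ← WW_tm]; convert this using 2 <;> omega
    · intro k hk
      have := eB k hk
      rw [← WW_tm, ← WW_tm]; convert this using 2 <;> omega
    · intro k hk
      have := eB' k hk
      rw [← WW_tm, ← WW_tm]; convert this using 2 <;> omega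
  · exact ovl 79 89 (by omega) (by omega)
      (zact 109 (by omega) (by omega) (by decide +kernel) (by omega) (by omega))
      (by omega) (by omega) (by decide +kernel) (by omega) (by omega)
  · exact run 181 (by omega)
      (zact 202 (by omega) (by omega) (by decide +kernel) (by omega) (by omega))
      (by omega) (by decide +kernel) (by omega)
  · exact run 275 (by omega)
      (zact 293 (by omega) (by omega) (by decide +kernel) (by omega) (by omega))
      (by omega) (by decide +kernel) (by omega)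
  · exact ovl 333 352 (by omega) (by omega)
      (zact 390 (by omega) (by omega) (by decide +kernel) (by omega) (by omega))
      (by omega) (by omega) (by decide +kernel) (by omega) (by omega)

end Pool.Agent.H.MP_554eee_co
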