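import Pool.Agent.H.MP_554eee_co.C

set_option autoImplicit false

namespace Pool.Agent.H.MP_554eee_co

lemma at_one {w : ℕ → Fin 2} {i : ℕ} {a : Fin 2} : At w i [a] ↔ w i = a := by
  simp [At, seg]

lemma at_cons {w : ℕ → Fin 2} {i : ℕ} {a : Fin 2} {l : List (Fin 2)} :
    At w i (a :: l) ↔ w i = a ∧ At w (i + 1) l := by
  rw [← at_one, ← List.singleton_append, at_append]; rfl

lemma at_nil {w : ℕ → Fin 2} {i : ℕ} : At w i [] := by simp [At, seg]

def atb : ℕ → List (Fin 2) → Bool
  | _, [] => true
  | i, a :: l => (bit i == a) && atb (i + 1) l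

lemma atb_spec {w : ℕ → Fin 2} (hw : ∀ n < 460, w n = WW n) : ∀ (l : List (Fin 2)) (i : ℕ),
    atb i l = true → i + l.length ≤ 460 → At w i l
  | [], _, _, _ => at_nil
  | a :: l, i, h, hl => by
    simp only [atb, Bool.and_eq_true, beq_iff_eq] at h
    simp only [List.length_cons] at hl
    refine at_cons.2 ⟨?_, atb_spec hw l (i + 1) h.2 (by omega)⟩
    rw [hw i (by omega), WW_bit (by omega)]; exact h.1

lemma f2_cases : ∀ a : Fin 2, a = 0 ∨ a = 1 := by decide

def ZZ : List (Fin 2) := [1, 1, 0, 1, 1, 0]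

section
variable {w : ℕ → Fin 2} (hav : Av w) (hw : ∀ n < 460, w n = WW n)
include hav hw

lemma no_run (a : Fin 2) (l : ℕ) (hl : 441 < l) (h : At w l [a, a, a]) : False := by
  have f4 : At w 415 (ZZ ++ [1] ++ [1] ++ [1] ++ [1] ++ [1]) :=
    atb_spec hw _ _ (by decide +kernel) (by decide)
  have f1 : At w 435 ([1] ++ [0] ++ [0, 1] ++ [0] ++ [1]) :=
    atb_spec hw _ _ (by decide +kernel) (by decide)
  have ha : a = 0 ∨ a = 1 := f2_cases a
  rcases ha with rfl | rfl
  · exact mk_occ [0, 1, 0, 1, 1, 0] [1] [0, 1] [0, 0, 0] ZZ [1] [1] [0] (by decide) (by decide)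
      (by decide) (by decide) (by decide) (by decide) (by decide) (by decide) 124 415 435 l
      (atb_spec hw _ _ (by decide +kernel) (by decide)) (by decide) f4 (by decide) f1 hl h hav
  · exact mk_occ [1, 0, 0, 1, 0] [1] [0, 1] [1, 1, 1] ZZ [1] [1] [0] (by decide) (by decide)
      (by decide) (by decide) (by decide) (by decide) (by decide) (by decide) 227 415 435 l
      (atb_spec hw _ _ (by decide +kernel) (by decide)) (by decide) f4 (by decide) f1 hl h hav

lemma no_ovl (a : Fin 2) (D : List (Fin 2)) (hD : D ≠ []) (k l : ℕ) (hk : 426 < k)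
    (h : At w k ([a] ++ D ++ [a] ++ D ++ [a])) (hl : k + ([a] ++ D ++ [a] ++ D ++ [a]).length < l)
    (h' : w l = a) : False := by
  have f4 : At w 415 (ZZ ++ [1] ++ [1] ++ [1] ++ [1] ++ [1]) :=
    atb_spec hw _ _ (by decide +kernel) (by decide)
  have ha : a = 0 ∨ a = 1 := f2_cases a
  rcases ha with rfl | rfl
  · exact mk_occ [0, 1, 0, 0, 1, 1] [0] [0] [0] ZZ [1] [1] D (by decide) (by decide)
      (by decide) (by decide) (by decide) (by decide) (by decide) hD 315 415 k l
      (atb_spec hw _ _ (by decide +kernel) (by decide)) (by decide) f4 hk h hl (at_one.2 h') hav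
  · exact mk_occ [1, 0, 0] [1] [1] [1] ZZ [1] [1] D (by decide) (by decide)
      (by decide) (by decide) (by decide) (by decide) (by decide) hD 70 415 k l
      (atb_spec hw _ _ (by decide +kernel) (by decide)) (by decide) f4 hk h hl (at_one.2 h') hav

omit hav in
lemma y_tm (n : ℕ) (hn : n < 33) : w (427 + n) = tm n := by
  rw [hw _ (by omega), WW_tm]

lemma y_run (i : ℕ) (h1 : w (427 + i) = w (427 + i + 1)) (h2 : w (427 + i + 1) = w (427 + i + 2)) :
    False := by
  by_cases hi : i < 20
  · refine of1 tm_of i ⟨?_, ?_⟩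
    · rw [← y_tm hw i (by omega), ← y_tm hw (i + 1) (by omega)]; exact h1
    · rw [← y_tm hw (i + 1) (by omega), ← y_tm hw (i + 2) (by omega)]; exact h2
  · refine no_run hav hw (w (427 + i)) (427 + i) (by omega) ?_
    exact at_cons.2 ⟨rfl, at_cons.2 ⟨h1.symm, at_one.2 (h1.trans h2).symm⟩⟩

lemma y_of : OF (fun n => w (427 + n)) := by
  intro i p hp h
  by_cases hp1 : p = 1
  · subst hp1
    exact y_run hav hw i (h 0 (by omega)) (h 1 (by omega))
  obtain ⟨d, rfl⟩ : ∃ d, p = d + 2 := ⟨p - 2, by omega⟩
  have h0 := h 0 (by omega)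
  have h1 := h (d + 2) (by omega)
  simp only at h0 h1
  have hD : seg w (427 + i + 1) (d + 1) ≠ [] := fun h => by
    have := congrArg List.length h; simp at this
  have hat : At w (427 + i) ([w (427 + i)] ++ seg w (427 + i + 1) (d + 1) ++ [w (427 + i)] ++
      seg w (427 + i + 1) (d + 1) ++ [w (427 + i)]) := by
    simp only [at_append, List.length_append, List.length_singleton, seg_len, at_one]
    refine ⟨⟨⟨⟨trivial, at_seg _ _ _⟩, ?_⟩, ?_⟩, ?_⟩
    · rw [show 427 + i + (1 + (d + 1)) = 427 + (i + (d + 2) + 0) by omega, ← h0]; rfl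
    · apply eqv_at
      intro k hk
      have := h (k + 1) (by omega)
      simp only at this
      convert this using 2 <;> omega
    · rw [show 427 + i + (1 + (d + 1) + 1 + (d + 1)) = 427 + (i + (d + 2) + (d + 2)) by omega, ← h1,
        show 427 + (i + (d + 2)) = 427 + (i + (d + 2) + 0) by omega, ← h0]; rfl
  have ne : ∀ l, 427 + i + (2 * d + 5) < l → w l ≠ w (427 + i) := by
    intro l hl he
    refine no_ovl hav hw _ _ hD _ l (by omega) hat ?_ he
    simp only [List.length_append, List.length_singleton, seg_len]; omega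
  have t : ∀ a b c : Fin 2, a ≠ c → b ≠ c → a = b := by decide
  refine y_run hav hw (i + 2 * d + 6) ?_ ?_
  · exact t _ _ _ (ne _ (by omega)) (ne _ (by omega))
  · exact t _ _ _ (ne _ (by omega)) (ne _ (by omega))

lemma four (k : ℕ) (g4 : Good (fun n => w (427 + n)) 4) (gk : Good (fun n => w (427 + n)) k) :
    w (427 + 2 ^ k * 4) = 1 := by
  by_contra hc
  have t : ∀ a : Fin 2, a ≠ 1 → a = 0 := by decide
  have h4 := t _ hc
  have h3 := good_three (y_of hav hw) gk
  obtain ⟨hs, g0, g1, g2⟩ := gk
  have e1 := ss_eqv hs (g1.trans g2.symm)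
  have e2 := ss_eqv hs (g0.trans h3.symm)
  have e3 := ss_eqv hs (a := 0) (b := 4) (g0.trans h4.symm)
  have hpos : 0 < 2 ^ k := by positivity
  generalize 2 ^ k = K at *
  have ne : ∀ a, seg w a K ≠ [] := fun a h => by
    have := congrArg List.length h; simp at this; omega
  have f4 : At w 421 ([1, 1, 1, 1, 1, 0] ++ seg w 427 K ++ seg w (427 + K) K ++ seg w (427 + K) K ++
      seg w 427 K ++ seg w 427 K) := by
    simp only [at_append, List.length_append, seg_len, List.length_cons, List.length_nil]
    refine ⟨⟨⟨⟨⟨atb_spec hw _ _ (by decide +kernel) (by decide), at_seg _ _ _⟩, ?_⟩, ?_⟩, ?_⟩, ?_⟩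
    · apply eqv_at; intro j _; congr 1; omega
    · apply eqv_at; intro j hj
      have := e1 j hj
      simp only at this
      convert this using 2 <;> omega
    · apply eqv_at; intro j hj
      have := e2 j hj
      simp only at this
      convert this using 2 <;> omega
    · apply eqv_at; intro j hj
      have := e3 j hj
      simp only at this
      convert this using 2 <;> omega
  have q : At w 0 (QQ [0, 1, 1, 0] [1] [0, 1] [0] [1, 1, 1, 1, 1, 0]) :=
    atb_spec hw _ _ (by decide +kernel) (by decide)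
  have s4 : ∀ r < 16, w (427 + 16 * (5 * K) + r) = w (427 + 16 * (5 * K)) + bit (427 + r) := by
    intro r hr
    have := g4.1 (5 * K) r hr
    simp only [show 2 ^ 4 = 16 by rfl] at this
    rw [bit_tm r (by omega), Nat.add_assoc]; exact this
  have fin : ∀ o l, o < 16 → o + 6 < l → l < 16 →
      At w (427 + 16 * (5 * K) + o) ([1] ++ [0] ++ [0, 1] ++ [0] ++ [1]) →
      w (427 + 16 * (5 * K) + l) = 0 → False := by
    intro o l ho hl hl' h1 h2
    refine mk_occ [0, 1, 1, 0] [1] [0, 1] [0] [1, 1, 1, 1, 1, 0] (seg w 427 K) (seg w (427 + K) K) [0]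
      (by decide) (by decide) (by decide) (by decide) (by decide) (ne _) (ne _) (by decide)
      0 421 _ _ q (by decide) f4 ?_ h1 ?_ (at_one.2 h2) hav
    · simp only [List.length_append, seg_len, List.length_cons, List.length_nil]; omega
    · simp only [List.length_append, List.length_cons, List.length_nil]; omega
  have ha : w (427 + 16 * (5 * K)) = 0 ∨ w (427 + 16 * (5 * K)) = 1 := by
    generalize w (427 + 16 * (5 * K)) = a; revert a; decide
  rcases ha with ha | ha
  · rw [ha] at s4
    refine fin 8 15 (by omega) (by omega) (by omega) ?_ (by rw [s4 15 (by omega)]; decide +kernel)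
    simp only [List.cons_append, List.nil_append, at_cons, Nat.add_assoc _ _ 1, at_nil, and_true]
    norm_num
    rw [s4 8 (by omega), s4 9 (by omega), s4 10 (by omega), s4 11 (by omega), s4 12 (by omega),
      s4 13 (by omega)]
    decide +kernel
  · have s0 := s4 0 (by omega)
    rw [ha] at s4
    refine fin 0 7 (by omega) (by omega) (by omega) ?_ (by rw [s4 7 (by omega)]; decide +kernel)
    refine at_cons.2 ⟨by rw [s4 0 (by omega)]; decide +kernel, ?_⟩
    refine at_cons.2 ⟨by rw [Nat.add_assoc, s4 _ (by omega)]; decide +kernel, ?_⟩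
    refine at_cons.2 ⟨by rw [Nat.add_assoc, Nat.add_assoc, s4 _ (by omega)]; decide +kernel, ?_⟩
    refine at_cons.2 ⟨by
      rw [Nat.add_assoc, Nat.add_assoc, Nat.add_assoc, s4 _ (by omega)]; decide +kernel, ?_⟩
    refine at_cons.2 ⟨by
      rw [Nat.add_assoc, Nat.add_assoc, Nat.add_assoc, Nat.add_assoc, s4 _ (by omega)]
      decide +kernel, ?_⟩
    refine at_cons.2 ⟨by
      rw [Nat.add_assoc, Nat.add_assoc, Nat.add_assoc, Nat.add_assoc, Nat.add_assoc,
        s4 _ (by omega)]
      decide +kernel, at_nil⟩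

theorem uniq : w = WW := by
  have hy := y_of hav hw
  have v : ∀ n, n < 33 → bit (427 + n) = 1 → w (427 + n) = 1 := by
    intro n hn h; rw [y_tm hw n hn, ← bit_tm n (by omega), h]
  have g0 : Good (fun n => w (427 + n)) 0 :=
    good_zero ((y_tm hw 0 (by omega)).trans tm_zero)
      (v 1 (by omega) (by decide +kernel)) (v 2 (by omega) (by decide +kernel))
  have g1 := good_step hy g0 (v 4 (by omega) (by decide +kernel))
  have g2 := good_step hy g1 (v 8 (by omega) (by decide +kernel))
  have g3 := good_step hy g2 (v 16 (by omega) (by decide +kernel))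
  have g4 := good_step hy g3 (v 32 (by omega) (by decide +kernel))
  have all : ∀ k, Good (fun n => w (427 + n)) k := by
    intro k
    induction k with
    | zero => exact g0
    | succ k ih => exact good_step hy ih (four hav hw k g4 ih)
  funext n
  by_cases hn : n < 427
  · exact hw n (by omega)
  · have : w (427 + (n - 427)) = tm (n - 427) := eq_tm all (n - 427)
    rw [← WW_tm, show 427 + (n - 427) = n by omega] at this
    exact this

end

end Pool.Agent.H.MP_554eee_co
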